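import Mathlib

/-!
# MP_2e7467_an : periodic solutions and global stability of a rational recurrence

For `x_{n+1} = (∑ β_i x_{n-i}) / (A + ∑ B_i x_{n-i})` with `A = ∑ β_i > 0`, the zero equilibrium is
globally asymptotically stable if and only if there is no solution of prime period `≥ 2`, if and
only if `gcd {i+1 : β_i > 0}` divides `j+1` for some `j` with `B_j > 0`.
-/

namespace Pool.Agent.Results.MP_2e7467_an.GlobalStability

open Filter Topology

variable {k : ℕ}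

/-- `x` (indexed so that `x 0, ..., x k` are the initial values) is a solution with nonnegative
initial values. -/
def IsSolution (A : ℝ) (β B : Fin (k + 1) → ℝ) (x : ℕ → ℝ) : Prop :=
  (∀ i ≤ k, 0 ≤ x i) ∧
  ∀ n, x (n + k + 1) = (∑ i, β i * x (n + k - i)) / (A + ∑ i, B i * x (n + k - i))

/-- `p` is the prime period of `x`. -/
def PrimePeriod (x : ℕ → ℝ) (p : ℕ) : Prop :=
  IsLeast {M : ℕ | 1 ≤ M ∧ ∀ n, x (n + M) = x n} p

/-- The zero equilibrium is stable. -/
def Stable (A : ℝ) (β B : Fin (k + 1) → ℝ) : Prop :=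
  ∀ ε : ℝ, 0 < ε → ∃ δ : ℝ, 0 < δ ∧ ∀ x, IsSolution A β B x → (∀ i ≤ k, x i < δ) → ∀ n, x n < ε

/-- The zero equilibrium is globally asymptotically stable. -/
def GAS (A : ℝ) (β B : Fin (k + 1) → ℝ) : Prop :=
  Stable A β B ∧ ∀ x, IsSolution A β B x → Tendsto x atTop (𝓝 0)

/-- The set `{i + 1 : β_i > 0}`. -/
def supp (β : Fin (k + 1) → ℝ) : Set ℕ := {s | ∃ i : Fin (k + 1), 0 < β i ∧ s = i + 1}

section

variable {A : ℝ} {β B : Fin (k + 1) → ℝ} (hβ : ∀ i, 0 ≤ β i) (hB : ∀ i, 0 ≤ B i)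
  (hA : A = ∑ i, β i) (hA0 : 0 < A)

include hβ hB hA0 in
lemma nonneg {x : ℕ → ℝ} (hx : IsSolution A β B x) : ∀ n, 0 ≤ x n := by
  intro n
  induction n using Nat.strong_induction_on with
  | _ n ih =>
  by_cases hn : n ≤ k
  · exact hx.1 n hn
  · obtain ⟨m, rfl⟩ : ∃ m, n = m + k + 1 := ⟨n - (k + 1), by omega⟩
    rw [hx.2 m]
    apply div_nonneg
    · exact Finset.sum_nonneg fun i _ => mul_nonneg (hβ i) (ih _ (by omega))
    · have : 0 ≤ ∑ i, B i * x (m + k - i) :=
        Finset.sum_nonneg fun i _ => mul_nonneg (hB i) (ih _ (by omega))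
      linarith

include hβ hB hA0 in
lemma mul_eq {x : ℕ → ℝ} (hx : IsSolution A β B x) (n : ℕ) :
    x (n + k + 1) * (A + ∑ i, B i * x (n + k - i)) = ∑ i, β i * x (n + k - i) := by
  have h0 := nonneg hβ hB hA0 hx
  have h1 : 0 ≤ ∑ i, B i * x (n + k - i) :=
    Finset.sum_nonneg fun i _ => mul_nonneg (hB i) (h0 _)
  rw [hx.2 n, div_mul_cancel₀]
  linarith

include hβ hB hA hA0 in
lemma bounded {x : ℕ → ℝ} (hx : IsSolution A β B x) (K : ℝ) (hK : ∀ i ≤ k, x i ≤ K) :
    ∀ n, x n ≤ K := by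
  have h0 := nonneg hβ hB hA0 hx
  have hK0 : 0 ≤ K := (h0 0).trans (hK 0 (Nat.zero_le _))
  intro n
  induction n using Nat.strong_induction_on with
  | _ n ih =>
  by_cases hn : n ≤ k
  · exact hK n hn
  · obtain ⟨m, rfl⟩ : ∃ m, n = m + k + 1 := ⟨n - (k + 1), by omega⟩
    have h1 := mul_eq hβ hB hA0 hx m
    have h2 : 0 ≤ ∑ i, B i * x (m + k - i) :=
      Finset.sum_nonneg fun i _ => mul_nonneg (hB i) (h0 _)
    have h3 : ∑ i, β i * x (m + k - i) ≤ A * K := by
      rw [hA, Finset.sum_mul]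
      exact Finset.sum_le_sum fun i _ => mul_le_mul_of_nonneg_left (ih _ (by omega)) (hβ i)
    have h4 : x (m + k + 1) * A ≤ A * K := by
      have := mul_nonneg (h0 (m + k + 1)) h2
      nlinarith
    rw [mul_comm] at h4
    exact le_of_mul_le_mul_left h4 hA0

/-- transfer of closeness to `L` by `s` steps backwards -/
def Good (x : ℕ → ℝ) (L : ℝ) (s : ℕ) : Prop :=
  ∀ δ : ℝ, 0 < δ → ∃ η : ℝ, 0 < η ∧ ∃ N : ℕ, ∀ m, N ≤ m → L - η ≤ x m → L - δ ≤ x (m - s)

lemma good_zero (x : ℕ → ℝ) (L : ℝ) : Good x L 0 :=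
  fun δ hδ => ⟨δ, hδ, 0, fun m _ h => by simpa using h⟩

lemma good_add (x : ℕ → ℝ) (L : ℝ) (s t : ℕ) (hs : Good x L s) (ht : Good x L t) :
    Good x L (s + t) := by
  intro δ hδ
  obtain ⟨η₁, h1, N₁, hN₁⟩ := ht δ hδ
  obtain ⟨η₂, h2, N₂, hN₂⟩ := hs η₁ h1
  refine ⟨η₂, h2, max N₂ (N₁ + s), fun m hm h => ?_⟩
  have h3 := hN₂ m (le_trans (le_max_left _ _) hm) h
  have h4 := hN₁ (m - s) (by have := le_trans (le_max_right _ _) hm; omega) h3
  rwa [Nat.sub_sub] at h4

include hβ hB hA hA0 in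
lemma good_of_supp {x : ℕ → ℝ} (hx : IsSolution A β B x) (L : ℝ)
    (hL : ∀ ε : ℝ, 0 < ε → ∃ N : ℕ, ∀ n, N ≤ n → x n ≤ L + ε) (i : Fin (k + 1)) (hi : 0 < β i) :
    Good x L (i + 1) := by
  intro δ hδ
  have h0 := nonneg hβ hB hA0 hx
  have hη : 0 < δ * β i / (2 * A) := by positivity
  obtain ⟨N, hN⟩ := hL _ hη
  set η := δ * β i / (2 * A) with hηdef
  refine ⟨η, hη, N + k + 1, fun m hm h => ?_⟩
  obtain ⟨n, rfl⟩ : ∃ n, m = n + k + 1 := ⟨m - (k + 1), by omega⟩
  have hnN : N ≤ n := by omega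
  have h1 := mul_eq hβ hB hA0 hx n
  have h2 : 0 ≤ ∑ i, B i * x (n + k - i) :=
    Finset.sum_nonneg fun i _ => mul_nonneg (hB i) (h0 _)
  have h3 : (L - η) * A ≤ ∑ i, β i * x (n + k - i) := by
    have h4 := mul_nonneg (h0 (n + k + 1)) h2
    have h5 := mul_le_mul_of_nonneg_right h hA0.le
    nlinarith
  have h4 : ∑ j, β j * x (n + k - j) ≤ β i * x (n + k - i) + (A - β i) * (L + η) := by
    rw [← Finset.add_sum_erase _ _ (Finset.mem_univ i)]
    have h5 : ∑ j ∈ Finset.univ.erase i, β j * x (n + k - j) ≤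
        ∑ j ∈ Finset.univ.erase i, β j * (L + η) := by
      refine Finset.sum_le_sum fun j _ => mul_le_mul_of_nonneg_left (hN _ ?_) (hβ j)
      have := j.2
      omega
    have h6 : ∑ j ∈ Finset.univ.erase i, β j = A - β i := by
      rw [hA, ← Finset.add_sum_erase _ _ (Finset.mem_univ i)]
      ring
    rw [← Finset.sum_mul, h6] at h5
    linarith
  have h5 : β i * (L - δ) ≤ β i * x (n + k - i) := by
    have h6 : 2 * A * η = δ * β i := by
      rw [hηdef]; field_simp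
    have h7 : 0 ≤ β i * η := by positivity
    nlinarith
  have h6 : n + k + 1 - ((i : ℕ) + 1) = n + k - i := by omega
  rw [h6]
  exact le_of_mul_le_mul_left h5 hi

include hβ hB hA hA0 in
lemma zero_of_supp {x : ℕ → ℝ} (hx : IsSolution A β B x) (L : ℝ) (hL0 : 0 < L)
    (hL : ∀ ε : ℝ, 0 < ε → ∃ N : ℕ, ∀ n, N ≤ n → x n ≤ L + ε) (j : Fin (k + 1)) (hj : 0 < B j)
    (δ : ℝ) (hδ : 0 < δ) :
    ∃ η : ℝ, 0 < η ∧ ∃ N : ℕ, ∀ m, N ≤ m → L - η ≤ x m → x (m - (j + 1)) ≤ δ := by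
  have h0 := nonneg hβ hB hA0 hx
  have hη' : 0 < δ * L * B j / (4 * A) := by positivity
  set η := min (L / 2) (δ * L * B j / (4 * A)) with hηdef
  have hη : 0 < η := lt_min (by positivity) hη'
  obtain ⟨N, hN⟩ := hL η hη
  refine ⟨η, hη, N + k + 1, fun m hm h => ?_⟩
  obtain ⟨n, rfl⟩ : ∃ n, m = n + k + 1 := ⟨m - (k + 1), by omega⟩
  have hnN : N ≤ n := by omega
  have h1 := mul_eq hβ hB hA0 hx n
  have h2 : B j * x (n + k - j) ≤ ∑ i, B i * x (n + k - i) :=
    Finset.single_le_sum (f := fun i : Fin (k + 1) => B i * x (n + k - i))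
      (fun i _ => mul_nonneg (hB i) (h0 _)) (Finset.mem_univ j)
  have h3 : ∑ i, β i * x (n + k - i) ≤ A * (L + η) := by
    rw [hA, Finset.sum_mul]
    refine Finset.sum_le_sum fun i _ => mul_le_mul_of_nonneg_left (hN _ ?_) (hβ i)
    have := i.2
    omega
  have hLη : L / 2 ≤ L - η := by
    have := min_le_left (L / 2) (δ * L * B j / (4 * A))
    linarith
  have h4 : 0 ≤ B j * x (n + k - j) := mul_nonneg hj.le (h0 _)
  have h5 : (L - η) * (A + B j * x (n + k - j)) ≤ A * (L + η) := by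
    have h6 : (L - η) * (A + B j * x (n + k - j)) ≤
        x (n + k + 1) * (A + ∑ i, B i * x (n + k - i)) :=
      mul_le_mul h (by linarith) (by linarith) (h0 _)
    linarith
  have h6 : (L / 2) * (B j * x (n + k - j)) ≤ 2 * A * η := by
    have h7 := mul_le_mul_of_nonneg_right hLη h4
    nlinarith
  have h7 : 4 * A * η ≤ δ * L * B j := by
    have h8 := min_le_right (L / 2) (δ * L * B j / (4 * A))
    rw [← hηdef, le_div_iff₀ (by positivity)] at h8
    linarith
  have h8 : n + k + 1 - ((j : ℕ) + 1) = n + k - j := by omega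
  rw [h8]
  have h9 : (L * B j) * x (n + k - j) ≤ (L * B j) * δ := by nlinarith
  exact le_of_mul_le_mul_left h9 (by positivity)

include hβ hB hA hA0 in
/-- If `gcd {i+1 : β_i > 0}` divides some `j+1` with `B_j > 0`, all solutions tend to zero. -/
lemma tendsto_zero (j : Fin (k + 1)) (hj : 0 < B j) (hd : Nat.setGcd (supp β) ∣ j + 1)
    {x : ℕ → ℝ} (hx : IsSolution A β B x) : Tendsto x atTop (𝓝 0) := by
  have h0 := nonneg hβ hB hA0 hx
  obtain ⟨K, hK⟩ : ∃ K, ∀ i ≤ k, x i ≤ K := by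
    refine ⟨∑ i ∈ Finset.range (k + 1), x i, fun i hi => ?_⟩
    exact Finset.single_le_sum (fun i _ => h0 i) (Finset.mem_range.2 (by omega))
  have hb := bounded hβ hB hA hA0 hx K hK
  have hbdd : IsBoundedUnder (· ≤ ·) atTop x := isBoundedUnder_of ⟨K, hb⟩
  have hbddb : IsBoundedUnder (· ≥ ·) atTop x := isBoundedUnder_of ⟨0, h0⟩
  set L := limsup x atTop with hLdef
  have hL : ∀ ε : ℝ, 0 < ε → ∃ N : ℕ, ∀ n, N ≤ n → x n ≤ L + ε := by
    intro ε hε
    have h1 : ∀ᶠ n in atTop, x n < L + ε :=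
      eventually_lt_of_limsup_lt (by linarith) hbdd
    obtain ⟨N, hN⟩ := eventually_atTop.1 h1
    exact ⟨N, fun n hn => (hN n hn).le⟩
  have hLle : L ≤ 0 := by
    by_contra hLpos
    push Not at hLpos
    have hgood : ∀ s ∈ AddSubmonoid.closure (supp β), Good x L s := by
      intro s hs
      induction hs using AddSubmonoid.closure_induction with
      | mem s hs =>
        obtain ⟨i, hi, rfl⟩ := hs
        exact good_of_supp hβ hB hA hA0 hx L hL i hi
      | zero => exact good_zero x L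
      | add s t _ _ hs ht => exact good_add x L s t hs ht
    obtain ⟨n₀, hn₀⟩ := Nat.exists_mem_closure_of_ge (supp β)
    set d := Nat.setGcd (supp β) with hd'
    have hd0 : 1 ≤ d := by
      rw [Nat.one_le_iff_ne_zero, hd', Ne, Nat.setGcd_eq_zero_iff]
      intro hsub
      obtain ⟨i, -, hi⟩ : ∃ i ∈ Finset.univ, 0 < β i := by
        by_contra hcon
        push Not at hcon
        have : A ≤ 0 := by rw [hA]; exact Finset.sum_nonpos hcon
        linarith
      have h1 : (i : ℕ) + 1 ∈ supp β := ⟨i, hi, rfl⟩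
      have h2 := hsub h1
      simp at h2
    set s := d * n₀ with hs
    have hsn : n₀ ≤ s := Nat.le_mul_of_pos_left n₀ hd0
    have g1 : Good x L s := hgood s (hn₀ s hsn (Dvd.intro n₀ rfl))
    have g2 : Good x L (s + (j + 1)) :=
      hgood _ (hn₀ _ (by omega) (Nat.dvd_add (Dvd.intro n₀ rfl) hd))
    obtain ⟨η₁, hη₁, N₁, h₁⟩ := g2 (L / 3) (by positivity)
    obtain ⟨η₂, hη₂, N₂, h₂⟩ := zero_of_supp hβ hB hA hA0 hx L hLpos hL j hj (L / 3)
      (by positivity)
    obtain ⟨η₃, hη₃, N₃, h₃⟩ := g1 η₂ hη₂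
    have hmin : 0 < min η₁ η₃ := lt_min hη₁ hη₃
    have hfreq : ∃ᶠ n in atTop, L - min η₁ η₃ < x n :=
      frequently_lt_of_lt_limsup hbddb.isCoboundedUnder_le (by linarith)
    obtain ⟨m, hm, hxm⟩ := (frequently_atTop.1 hfreq) (N₁ + N₂ + N₃ + s + k + 1)
    have e1 := h₁ m (by omega) (by have := min_le_left η₁ η₃; linarith)
    have e2 := h₃ m (by omega) (by have := min_le_right η₁ η₃; linarith)
    have e3 := h₂ (m - s) (by omega) e2
    rw [Nat.sub_sub] at e3
    linarith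
  rw [Metric.tendsto_atTop]
  intro ε hε
  obtain ⟨N, hN⟩ := hL (ε / 2) (by positivity)
  refine ⟨N, fun n hn => ?_⟩
  rw [Real.dist_eq, sub_zero, abs_of_nonneg (h0 n)]
  have := hN n hn
  linarith

include hA hA0 hβ hB in
lemma stable : Stable A β B := by
  intro ε hε
  refine ⟨ε / 2, by positivity, fun x hx hi n => ?_⟩
  have := bounded hβ hB hA hA0 hx (ε / 2) (fun i hi' => (hi i hi').le) n
  linarith

include hβ hB hA hA0 in
/-- If `d = gcd {i+1 : β_i > 0}` divides no `j+1` with `B_j > 0`, the indicator of `d ∣ n` is a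
solution of prime period `d`. -/
lemma periodic (hd : ∀ j, 0 < B j → ¬ Nat.setGcd (supp β) ∣ j + 1) :
    IsSolution A β B (fun n => if Nat.setGcd (supp β) ∣ n then 1 else 0) := by
  set d := Nat.setGcd (supp β) with hd'
  refine ⟨fun i _ => ?_, fun n => ?_⟩
  · show (0 : ℝ) ≤ if d ∣ i then 1 else 0
    split_ifs <;> norm_num
  show (if d ∣ n + k + 1 then (1 : ℝ) else 0) =
    (∑ i : Fin (k + 1), β i * (if d ∣ n + k - i then (1 : ℝ) else 0)) /
    (A + ∑ i : Fin (k + 1), B i * (if d ∣ n + k - i then (1 : ℝ) else 0))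
  have hstep : ∀ i : Fin (k + 1), n + k + 1 = (n + k - i) + (i + 1) := fun i => by
    have := i.2
    omega
  by_cases h : d ∣ n + k + 1
  · rw [if_pos h]
    have h1 : ∀ i : Fin (k + 1), β i * (if d ∣ n + k - i then (1 : ℝ) else 0) = β i := by
      intro i
      rcases eq_or_lt_of_le (hβ i) with h0 | h0
      · rw [← h0, zero_mul]
      · have h2 : d ∣ (i : ℕ) + 1 := Nat.setGcd_dvd_of_mem ⟨i, h0, rfl⟩
        have h3 : d ∣ n + k - i := by
          rw [hstep i] at h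
          exact (Nat.dvd_add_left h2).1 h
        rw [if_pos h3, mul_one]
    have h4 : ∀ i : Fin (k + 1), B i * (if d ∣ n + k - i then (1 : ℝ) else 0) = 0 := by
      intro i
      rcases eq_or_lt_of_le (hB i) with h0 | h0
      · rw [← h0, zero_mul]
      · have h3 : ¬ d ∣ n + k - i := by
          intro h5
          rw [hstep i] at h
          exact hd i h0 ((Nat.dvd_add_right h5).1 h)
        rw [if_neg h3, mul_zero]
    simp_rw [h1, h4]
    rw [Finset.sum_const_zero, add_zero, ← hA, div_self hA0.ne']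
  · rw [if_neg h]
    have h1 : ∀ i : Fin (k + 1), β i * (if d ∣ n + k - i then (1 : ℝ) else 0) = 0 := by
      intro i
      rcases eq_or_lt_of_le (hβ i) with h0 | h0
      · rw [← h0, zero_mul]
      · have h2 : d ∣ (i : ℕ) + 1 := Nat.setGcd_dvd_of_mem ⟨i, h0, rfl⟩
        have h3 : ¬ d ∣ n + k - i := by
          intro h5
          apply h
          rw [hstep i]
          exact dvd_add h5 h2
        rw [if_neg h3, mul_zero]
    simp_rw [h1]
    rw [Finset.sum_const_zero, zero_div]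

lemma indicator_prime (d : ℕ) (hd : 1 ≤ d) :
    PrimePeriod (fun n => if d ∣ n then (1 : ℝ) else 0) d := by
  constructor
  · refine ⟨hd, fun n => ?_⟩
    simp
  · rintro M ⟨hM1, hM⟩
    have h1 := hM 0
    simp only [zero_add, dvd_zero, if_true] at h1
    by_contra hlt
    push Not at hlt
    rw [if_neg (Nat.not_dvd_of_pos_of_lt hM1 hlt)] at h1
    exact zero_ne_one h1

end

/-- **Answer to Q1: the statement is true**, and there is an explicit criterion. -/
theorem result (k : ℕ) (A : ℝ) (β B : Fin (k + 1) → ℝ) (hβ : ∀ i, 0 ≤ β i) (hB : ∀ i, 0 ≤ B i)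
    (hβs : 0 < ∑ i, β i) (hBs : 0 < ∑ i, B i) (hA : A = ∑ i, β i) :
    ((¬ ∃ (x : ℕ → ℝ) (p : ℕ), IsSolution A β B x ∧ 2 ≤ p ∧ PrimePeriod x p) → GAS A β B) ∧
    (GAS A β B ↔ ∃ j, 0 < B j ∧ Nat.setGcd (supp β) ∣ j + 1) := by
  have hA0 : 0 < A := by rw [hA]; exact hβs
  have key : (∃ j, 0 < B j ∧ Nat.setGcd (supp β) ∣ j + 1) → GAS A β B := by
    rintro ⟨j, hj, hd⟩
    exact ⟨stable hβ hB hA hA0, fun x hx => tendsto_zero hβ hB hA hA0 j hj hd hx⟩
  obtain ⟨j₀, -, hj₀⟩ : ∃ j ∈ Finset.univ, 0 < B j := by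
    by_contra hcon
    push Not at hcon
    exact absurd hBs (not_lt.2 (Finset.sum_nonpos hcon))
  have hd0 : 1 ≤ Nat.setGcd (supp β) := by
    rw [Nat.one_le_iff_ne_zero, Ne, Nat.setGcd_eq_zero_iff]
    intro hsub
    obtain ⟨i, -, hi⟩ : ∃ i ∈ Finset.univ, 0 < β i := by
      by_contra hcon
      push Not at hcon
      exact absurd hβs (not_lt.2 (Finset.sum_nonpos hcon))
    have h1 : (i : ℕ) + 1 ∈ supp β := ⟨i, hi, rfl⟩
    have h2 := hsub h1
    simp at h2
  refine ⟨fun hno => ?_, fun hgas => ?_, key⟩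
  · by_contra hcon
    have hnot : ∀ j, 0 < B j → ¬ Nat.setGcd (supp β) ∣ j + 1 := fun j hj hd =>
      hcon (key ⟨j, hj, hd⟩)
    apply hno
    refine ⟨_, Nat.setGcd (supp β), periodic hβ hB hA hA0 hnot, ?_, indicator_prime _ hd0⟩
    by_contra hlt
    have h1 : Nat.setGcd (supp β) = 1 := by omega
    apply hnot j₀ hj₀
    rw [h1]
    exact one_dvd _
  · by_contra hcon
    push Not at hcon
    have h1 := hgas.2 _ (periodic hβ hB hA hA0 hcon)
    set d := Nat.setGcd (supp β) with hd'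
    have h2 : Tendsto (fun n : ℕ => d * n) atTop atTop :=
      tendsto_id.const_mul_atTop' (by omega)
    have h3 := h1.comp h2
    have h4 : ((fun n => if d ∣ n then (1 : ℝ) else 0) ∘ fun n : ℕ => d * n) = fun _ => 1 := by
      funext n
      simp
    rw [h4] at h3
    exact zero_ne_one (tendsto_nhds_unique h3 tendsto_const_nhds)

end Pool.Agent.Results.MP_2e7467_an.GlobalStability
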